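import Mathlib

/-! Regions, out-neighbourhoods, inseparable sets, attached vertices. -/

open Classical

namespace Pool.Agent.OSX54

universe u

variable {V : Type u}

/-- out-neighbourhood of `R` inside `Y` -/
noncomputable def Nout (a : V → V → Prop) (Y R : Finset V) : Finset V :=
  (Y \ R).filter (fun y => ∃ x ∈ R, a x y)

theorem mem_Nout {a : V → V → Prop} {Y R : Finset V} {y : V} :
    y ∈ Nout a Y R ↔ (y ∈ Y ∧ y ∉ R) ∧ ∃ x ∈ R, a x y := by
  unfold Nout
  rw [Finset.mem_filter, Finset.mem_sdiff]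

/-- `K` is `m`-inseparable in the digraph induced on `Y`: every region `R` of order `< m` has `K`
inside (up to its boundary) or outside. -/
def Insep (a : V → V → Prop) (Y : Finset V) (m : ℕ) (K : Finset V) : Prop :=
  ∀ R ⊆ Y, (Nout a Y R).card < m → K ⊆ R ∪ Nout a Y R ∨ Disjoint K R

/-- `x` is attached to `Z` in `X ∪ Z`: no region `R ⊆ X` of order `< N` contains `x`. -/
def Att (a : V → V → Prop) (X Z : Finset V) (N : ℕ) (x : V) : Prop :=
  ∀ R ⊆ X, x ∈ R → N ≤ (Nout a (X ∪ Z) R).card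

/-- Submodularity, the two inclusions. -/
theorem Nout_inter_union_subset {a : V → V → Prop} {Y R S : Finset V} :
    Nout a Y (R ∩ S) ∪ Nout a Y (R ∪ S) ⊆ Nout a Y R ∪ Nout a Y S := by
  intro y hy
  simp only [Finset.mem_union, mem_Nout, Finset.mem_inter] at hy ⊢
  rcases hy with ⟨⟨h1, h2⟩, x, ⟨h3, h4⟩, h5⟩ | ⟨⟨h1, h2⟩, x, h3, h5⟩
  · by_cases hR : y ∈ R
    · right
      exact ⟨⟨h1, fun h => h2 ⟨hR, h⟩⟩, x, h4, h5⟩
    · left
      exact ⟨⟨h1, hR⟩, x, h3, h5⟩
  · rcases h3 with h3 | h3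
    · left
      exact ⟨⟨h1, fun h => h2 (Or.inl h)⟩, x, h3, h5⟩
    · right
      exact ⟨⟨h1, fun h => h2 (Or.inr h)⟩, x, h3, h5⟩

theorem Nout_inter_inter_subset {a : V → V → Prop} {Y R S : Finset V} :
    Nout a Y (R ∩ S) ∩ Nout a Y (R ∪ S) ⊆ Nout a Y R ∩ Nout a Y S := by
  intro y hy
  simp only [Finset.mem_union, mem_Nout, Finset.mem_inter] at hy ⊢
  obtain ⟨⟨⟨h1, h2⟩, x, ⟨h3, h4⟩, h5⟩, ⟨h6, h7⟩, _⟩ := hy
  exact ⟨⟨⟨h1, fun h => h7 (Or.inl h)⟩, x, h3, h5⟩, ⟨⟨h1, fun h => h7 (Or.inr h)⟩, x, h4, h5⟩⟩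

theorem Nout_submod {a : V → V → Prop} {Y R S : Finset V} :
    (Nout a Y (R ∩ S)).card + (Nout a Y (R ∪ S)).card ≤ (Nout a Y R).card + (Nout a Y S).card := by
  have h1 := Finset.card_union_add_card_inter (Nout a Y (R ∩ S)) (Nout a Y (R ∪ S))
  have h2 := Finset.card_union_add_card_inter (Nout a Y R) (Nout a Y S)
  have h3 := Finset.card_le_card (Nout_inter_union_subset (a := a) (Y := Y) (R := R) (S := S))
  have h4 := Finset.card_le_card (Nout_inter_inter_subset (a := a) (Y := Y) (R := R) (S := S))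
  omega

/-- Equality in the submodular inequality holds at every vertex. -/
theorem Nout_eq_pointwise {a : V → V → Prop} {Y R S : Finset V}
    (h : (Nout a Y R).card + (Nout a Y S).card ≤
      (Nout a Y (R ∩ S)).card + (Nout a Y (R ∪ S)).card) {x : V} (hx : x ∈ Nout a Y R)
    (hx' : x ∉ Nout a Y (R ∩ S)) : x ∈ Nout a Y (R ∪ S) ∧ x ∉ Nout a Y S ∧ x ∉ S := by
  have h1 := Finset.card_union_add_card_inter (Nout a Y (R ∩ S)) (Nout a Y (R ∪ S))
  have h2 := Finset.card_union_add_card_inter (Nout a Y R) (Nout a Y S)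
  have h3 := Finset.card_le_card (Nout_inter_union_subset (a := a) (Y := Y) (R := R) (S := S))
  have h4 := Finset.card_le_card (Nout_inter_inter_subset (a := a) (Y := Y) (R := R) (S := S))
  have e1 : Nout a Y (R ∩ S) ∪ Nout a Y (R ∪ S) = Nout a Y R ∪ Nout a Y S :=
    Finset.eq_of_subset_of_card_le Nout_inter_union_subset (by omega)
  have e2 : Nout a Y (R ∩ S) ∩ Nout a Y (R ∪ S) = Nout a Y R ∩ Nout a Y S :=
    Finset.eq_of_subset_of_card_le Nout_inter_inter_subset (by omega)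
  have hu : x ∈ Nout a Y (R ∩ S) ∪ Nout a Y (R ∪ S) := by
    rw [e1]
    exact Finset.mem_union_left _ hx
  have hu' : x ∈ Nout a Y (R ∪ S) := (Finset.mem_union.1 hu).resolve_left hx'
  refine ⟨hu', fun hS => ?_, fun hS => ?_⟩
  · have : x ∈ Nout a Y (R ∩ S) ∩ Nout a Y (R ∪ S) := by
      rw [e2]
      exact Finset.mem_inter.2 ⟨hx, hS⟩
    exact hx' (Finset.mem_inter.1 this).1
  · exact (mem_Nout.1 hu').1.2 (Finset.mem_union_right _ hS)

/-- A set which is inseparable after the deletion of a vertex was inseparable before. -/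
theorem Insep.of_erase {a : V → V → Prop} {Y : Finset V} {m : ℕ} {K : Finset V} {x : V}
    (hx : x ∉ K) (h : Insep a (Y.erase x) m K) : Insep a Y m K := by
  intro R hR hc
  have hsub : Nout a (Y.erase x) (R.erase x) ⊆ Nout a Y R := by
    intro y hy
    rw [mem_Nout] at hy ⊢
    obtain ⟨⟨h1, h2⟩, z, h3, h4⟩ := hy
    rw [Finset.mem_erase] at h1 h3
    exact ⟨⟨h1.2, fun h5 => h2 (Finset.mem_erase.2 ⟨h1.1, h5⟩)⟩, z, h3.2, h4⟩
  rcases h (R.erase x) (Finset.erase_subset_erase x hR)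
    ((Finset.card_le_card hsub).trans_lt hc) with h1 | h1
  · left
    exact h1.trans (Finset.union_subset_union (Finset.erase_subset _ _) hsub)
  · right
    rw [Finset.disjoint_left] at h1 ⊢
    intro y hy hyR
    exact h1 hy (Finset.mem_erase.2 ⟨fun e => hx (e ▸ hy), hyR⟩)

/-- Attached vertices stay attached in larger sets. -/
theorem Att.mono {a : V → V → Prop} {X X' Z : Finset V} {N : ℕ} {x : V}
    (h : Att a X Z N x) (hx : x ∈ X) (hX : X ⊆ X') (hZ : Disjoint X' Z) : Att a X' Z N x := by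
  intro R hR hxR
  refine (h (R ∩ X) Finset.inter_subset_right (Finset.mem_inter.2 ⟨hxR, hx⟩)).trans
    (Finset.card_le_card ?_)
  intro y hy
  rw [mem_Nout] at hy ⊢
  obtain ⟨⟨h1, h2⟩, z, h3, h4⟩ := hy
  rw [Finset.mem_union] at h1
  refine ⟨⟨?_, fun hyR => ?_⟩, z, (Finset.mem_inter.1 h3).1, h4⟩
  · rcases h1 with h1 | h1
    · exact Finset.mem_union_left _ (hX h1)
    · exact Finset.mem_union_right _ h1
  · rcases h1 with h1 | h1
    · exact h2 (Finset.mem_inter.2 ⟨hyR, h1⟩)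
    · exact Finset.disjoint_left.1 hZ (hR hyR) h1

end Pool.Agent.OSX54
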