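import Pool.Agent.OSX54.Basic

/-! The counting argument: critical vertices against the size of rich inseparable sets. -/

open Classical

namespace Pool.Agent.OSX54

universe u

variable {V : Type u}

/-- the setting -/
structure Setting (a : V → V → Prop) (X Z : Finset V) (N : ℕ) (BB : Finset (Finset V)) : Prop where
  pos : 0 < N
  sub : ∀ K ∈ BB, K ⊆ X
  ins : ∀ K ∈ BB, Insep a (X ∪ Z) (2 * N) K
  big : ∀ K ∈ BB, 5 * N + 1 ≤ K.card
  att : ∀ K ∈ BB, ∀ x ∈ K, Att a X Z N x
  max : ∀ K ∈ BB, ∀ K' ∈ BB, Insep a (X ∪ Z) (2 * N) (K ∪ K') → K = K'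

/-- the members of `BB` inside the region `R` -/
noncomputable def cl (BB : Finset (Finset V)) (R : Finset V) : Finset (Finset V) :=
  BB.filter (fun K => ¬ Disjoint K R)

theorem mem_cl {BB : Finset (Finset V)} {R K : Finset V} :
    K ∈ cl BB R ↔ K ∈ BB ∧ ¬ Disjoint K R := by
  unfold cl
  rw [Finset.mem_filter]

theorem cl_union {BB : Finset (Finset V)} {R S : Finset V} : cl BB (R ∪ S) = cl BB R ∪ cl BB S := by
  ext K
  simp only [mem_cl, Finset.mem_union, Finset.disjoint_union_right]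
  tauto

theorem cl_mono {BB : Finset (Finset V)} {R S : Finset V} (h : R ⊆ S) : cl BB R ⊆ cl BB S := by
  intro K hK
  rw [mem_cl] at hK ⊢
  exact ⟨hK.1, fun hd => hK.2 (hd.mono_right h)⟩

/-- tight regions -/
def Tight (a : V → V → Prop) (X Z : Finset V) (N : ℕ) (BB : Finset (Finset V)) (R : Finset V) :
    Prop :=
  R ⊆ X ∧ (Nout a (X ∪ Z) R).card = N ∧ (cl BB R).Nonempty

section

variable {a : V → V → Prop} {X Z : Finset V} {N : ℕ} {BB : Finset (Finset V)}

theorem Setting.le_of_cl (S : Setting a X Z N BB) {R K : Finset V} (hR : R ⊆ X)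
    (hK : K ∈ cl BB R) : N ≤ (Nout a (X ∪ Z) R).card := by
  rw [mem_cl, Finset.not_disjoint_iff] at hK
  obtain ⟨hK, x, hx, hxR⟩ := hK
  exact S.att K hK x hx R hR hxR

theorem Setting.sub_of_cl (S : Setting a X Z N BB) {R K : Finset V} (hR : R ⊆ X)
    (hN : (Nout a (X ∪ Z) R).card < 2 * N) (hK : K ∈ cl BB R) : K ⊆ R ∪ Nout a (X ∪ Z) R := by
  rw [mem_cl] at hK
  exact (S.ins K hK.1 R (hR.trans Finset.subset_union_left) hN).resolve_right hK.2

theorem Setting.lt (S : Setting a X Z N BB) {R : Finset V} (h : Tight a X Z N BB R) :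
    (Nout a (X ∪ Z) R).card < 2 * N := by
  have := S.pos
  rw [h.2.1]
  omega

theorem Setting.meet (S : Setting a X Z N BB) {R R' K : Finset V} (h : Tight a X Z N BB R)
    (h' : Tight a X Z N BB R') (hK : K ∈ cl BB R) (hK' : K ∈ cl BB R') : K ∈ cl BB (R ∩ R') := by
  have h1 := S.sub_of_cl h.1 (S.lt h) hK
  have h2 := S.sub_of_cl h'.1 (S.lt h') hK'
  have h3 := S.big K (mem_cl.1 hK).1
  rw [mem_cl]
  refine ⟨(mem_cl.1 hK).1, fun hd => ?_⟩
  have h4 : K ⊆ Nout a (X ∪ Z) R ∪ Nout a (X ∪ Z) R' := by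
    intro y hy
    have h5 := h1 hy
    have h6 := h2 hy
    rw [Finset.mem_union] at h5 h6 ⊢
    rcases h5 with h5 | h5
    · rcases h6 with h6 | h6
      · exact absurd (Finset.mem_inter.2 ⟨h5, h6⟩) (Finset.disjoint_left.1 hd hy)
      · exact Or.inr h6
    · exact Or.inl h5
  have h5 := (Finset.card_le_card h4).trans (Finset.card_union_le _ _)
  rw [h.2.1, h'.2.1] at h5
  omega

theorem Setting.cl_inter (S : Setting a X Z N BB) {R R' : Finset V} (h : Tight a X Z N BB R)
    (h' : Tight a X Z N BB R') : cl BB (R ∩ R') = cl BB R ∩ cl BB R' := by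
  apply Finset.Subset.antisymm
  · intro K hK
    exact Finset.mem_inter.2 ⟨cl_mono Finset.inter_subset_left hK,
      cl_mono Finset.inter_subset_right hK⟩
  · intro K hK
    rw [Finset.mem_inter] at hK
    exact S.meet h h' hK.1 hK.2

/-- intersections and unions of tight regions with a common member of `BB` are tight -/
theorem Setting.inter_union (S : Setting a X Z N BB) {R R' K : Finset V}
    (h : Tight a X Z N BB R) (h' : Tight a X Z N BB R') (hK : K ∈ cl BB R) (hK' : K ∈ cl BB R') :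
    Tight a X Z N BB (R ∩ R') ∧ Tight a X Z N BB (R ∪ R') := by
  have h1 := S.meet h h' hK hK'
  have h2 : K ∈ cl BB (R ∪ R') := cl_mono Finset.subset_union_left hK
  have h3 : R ∩ R' ⊆ X := Finset.inter_subset_left.trans h.1
  have h4 : R ∪ R' ⊆ X := Finset.union_subset h.1 h'.1
  have h5 := S.le_of_cl h3 h1
  have h6 := S.le_of_cl h4 h2
  have h7 := Nout_submod (a := a) (Y := X ∪ Z) (R := R) (S := R')
  rw [h.2.1, h'.2.1] at h7
  exact ⟨⟨h3, by omega, K, h1⟩, ⟨h4, by omega, K, h2⟩⟩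

/-- classes -/
def IsCl (a : V → V → Prop) (X Z : Finset V) (N : ℕ) (BB : Finset (Finset V))
    (W : Finset (Finset V)) : Prop :=
  ∃ R, Tight a X Z N BB R ∧ cl BB R = W

theorem IsCl.nonempty {W : Finset (Finset V)} (h : IsCl a X Z N BB W) : W.Nonempty := by
  obtain ⟨R, h1, rfl⟩ := h
  exact h1.2.2

theorem IsCl.sub {W : Finset (Finset V)} (h : IsCl a X Z N BB W) : W ⊆ BB := by
  obtain ⟨R, _, rfl⟩ := h
  exact Finset.filter_subset _ _

/-- the maximal region of a class -/
theorem Setting.exists_max (S : Setting a X Z N BB) {W : Finset (Finset V)}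
    (h : IsCl a X Z N BB W) :
    ∃ Rm, Tight a X Z N BB Rm ∧ cl BB Rm = W ∧ ∀ R, Tight a X Z N BB R → cl BB R ⊆ W → R ⊆ Rm := by
  have hne : (X.powerset.filter (fun R => Tight a X Z N BB R ∧ cl BB R = W)).Nonempty := by
    obtain ⟨R, h1, h2⟩ := h
    exact ⟨R, Finset.mem_filter.2 ⟨Finset.mem_powerset.2 h1.1, h1, h2⟩⟩
  obtain ⟨Rm, hRm, hmax⟩ := Finset.exists_max_image _ Finset.card hne
  rw [Finset.mem_filter] at hRm
  obtain ⟨_, h1, h2⟩ := hRm
  refine ⟨Rm, h1, h2, fun R hR hRW => ?_⟩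
  obtain ⟨K, hK⟩ := hR.2.2
  have hK' : K ∈ cl BB Rm := by
    rw [h2]
    exact hRW hK
  have h3 := (S.inter_union hR h1 hK hK').2
  have h4 : cl BB (R ∪ Rm) = W := by
    rw [cl_union, h2]
    exact Finset.union_eq_right.2 hRW
  have h5 := hmax (R ∪ Rm) (Finset.mem_filter.2 ⟨Finset.mem_powerset.2 h3.1, h3, h4⟩)
  have h6 : Rm = R ∪ Rm := Finset.eq_of_subset_of_card_le Finset.subset_union_right h5
  rw [h6]
  exact Finset.subset_union_left

/-- `x ∈ K` is a vertex of the boundary of the tight region `R` and `K` is outside `R` -/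
def Port (a : V → V → Prop) (X Z : Finset V) (N : ℕ) (BB : Finset (Finset V)) (K : Finset V)
    (x : V) (R : Finset V) : Prop :=
  K ∈ BB ∧ x ∈ K ∧ Tight a X Z N BB R ∧ K ∉ cl BB R ∧ x ∈ Nout a (X ∪ Z) R

/-- a port whose region has a minimal class -/
def MinPort (a : V → V → Prop) (X Z : Finset V) (N : ℕ) (BB : Finset (Finset V)) (K : Finset V)
    (x : V) (R : Finset V) : Prop :=
  Port a X Z N BB K x R ∧ ∀ R', Port a X Z N BB K x R' → cl BB R' ⊆ cl BB R → cl BB R' = cl BB R

theorem exists_minPort {K R : Finset V} {x : V} (h : Port a X Z N BB K x R) :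
    ∃ R', MinPort a X Z N BB K x R' := by
  have hne : (X.powerset.filter (fun R => Port a X Z N BB K x R)).Nonempty :=
    ⟨R, Finset.mem_filter.2 ⟨Finset.mem_powerset.2 h.2.2.1.1, h⟩⟩
  obtain ⟨R', hR', hmin⟩ := Finset.exists_min_image _ (fun R => (cl BB R).card) hne
  rw [Finset.mem_filter] at hR'
  refine ⟨R', hR'.2, fun R'' h1 h2 => ?_⟩
  exact Finset.eq_of_subset_of_card_le h2
    (hmin R'' (Finset.mem_filter.2 ⟨Finset.mem_powerset.2 h1.2.2.1.1, h1⟩))

theorem Port.exit {K R Rm : Finset V} {x : V} (h : Port a X Z N BB K x R) (hR : R ⊆ Rm)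
    (hK : K ∉ cl BB Rm) : x ∈ Nout a (X ∪ Z) Rm := by
  obtain ⟨h1, h2, h3, h4, h5⟩ := h
  rw [mem_Nout] at h5 ⊢
  obtain ⟨⟨h6, h7⟩, y, h8, h9⟩ := h5
  refine ⟨⟨h6, fun h10 => hK ?_⟩, y, hR h8, h9⟩
  rw [mem_cl, Finset.not_disjoint_iff]
  exact ⟨h1, x, h2, h10⟩

/-- (P1) -/
theorem Setting.port_union (S : Setting a X Z N BB) {K R R' L : Finset V} {x : V}
    (h : MinPort a X Z N BB K x R) (h' : Tight a X Z N BB R') (hL : L ∈ cl BB R)
    (hL' : L ∈ cl BB R') (hn : ¬ cl BB R ⊆ cl BB R') :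
    K ∉ cl BB R' ∧ Tight a X Z N BB (R ∪ R') ∧ K ∉ cl BB (R ∪ R') := by
  obtain ⟨⟨h1, h2, h3, h4, h5⟩, hmin⟩ := h
  obtain ⟨h6, h7⟩ := S.inter_union h3 h' hL hL'
  have h8 : x ∉ Nout a (X ∪ Z) (R ∩ R') := by
    intro hx
    have h9 := hmin (R ∩ R') ⟨h1, h2, h6, fun h10 => h4 (cl_mono Finset.inter_subset_left h10),
      hx⟩ (cl_mono Finset.inter_subset_left)
    apply hn
    rw [← h9]
    exact cl_mono Finset.inter_subset_right
  have h9 := Nout_eq_pointwise (by rw [h3.2.1, h'.2.1, h6.2.1, h7.2.1]) h5 h8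
  have h10 : K ∉ cl BB R' := by
    intro hK
    have h11 := S.sub_of_cl h'.1 (S.lt h') hK h2
    rw [Finset.mem_union] at h11
    rcases h11 with h11 | h11
    · exact h9.2.2 h11
    · exact h9.2.1 h11
  refine ⟨h10, h7, ?_⟩
  rw [cl_union, Finset.mem_union]
  tauto

/-- ports inside the class `W` -/
noncomputable def PP (a : V → V → Prop) (X Z : Finset V) (N : ℕ) (BB : Finset (Finset V))
    (W : Finset (Finset V)) : Finset V :=
  X.filter (fun x => ∃ K ∈ W, ∃ R, MinPort a X Z N BB K x R ∧ cl BB R ⊆ W)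

/-- ports whose region has its class inside `W` -/
noncomputable def GG (a : V → V → Prop) (X Z : Finset V) (N : ℕ) (BB : Finset (Finset V))
    (W : Finset (Finset V)) : Finset V :=
  X.filter (fun x => ∃ K, ∃ R, MinPort a X Z N BB K x R ∧ cl BB R ⊆ W)

theorem mem_PP {W : Finset (Finset V)} {x : V} : x ∈ PP a X Z N BB W ↔
    x ∈ X ∧ ∃ K ∈ W, ∃ R, MinPort a X Z N BB K x R ∧ cl BB R ⊆ W := by
  unfold PP
  rw [Finset.mem_filter]

theorem mem_GG {W : Finset (Finset V)} {x : V} : x ∈ GG a X Z N BB W ↔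
    x ∈ X ∧ ∃ K, ∃ R, MinPort a X Z N BB K x R ∧ cl BB R ⊆ W := by
  unfold GG
  rw [Finset.mem_filter]

/-- one step of the induction for classes -/
theorem Setting.PP_step (S : Setting a X Z N BB) {W W' : Finset (Finset V)} {Rm : Finset V}
    (h1 : Tight a X Z N BB Rm) (h2 : cl BB Rm = W')
    (h3 : ∀ R, Tight a X Z N BB R → cl BB R ⊆ W' → R ⊆ Rm) (hW : W' ⊆ W)
    (hmax : ∀ W'', IsCl a X Z N BB W'' → W'' ⊂ W → W''.card ≤ W'.card) :
    PP a X Z N BB W ⊆ (PP a X Z N BB W' ∪ Nout a (X ∪ Z) Rm) ∪ GG a X Z N BB (W \ W') := by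
  intro x hx
  rw [mem_PP] at hx
  obtain ⟨hxX, K, hK, R, hR, hRW⟩ := hx
  by_cases c1 : cl BB R ⊆ W'
  · apply Finset.mem_union_left
    by_cases c2 : K ∈ W'
    · apply Finset.mem_union_left
      exact mem_PP.2 ⟨hxX, K, c2, R, hR, c1⟩
    · apply Finset.mem_union_right
      exact hR.1.exit (h3 R hR.1.2.2.1 c1) (by rw [h2]; exact c2)
  · by_cases c2 : Disjoint (cl BB R) W'
    · apply Finset.mem_union_right
      refine mem_GG.2 ⟨hxX, K, R, hR, fun L hL => ?_⟩
      exact Finset.mem_sdiff.2 ⟨hRW hL, Finset.disjoint_left.1 c2 hL⟩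
    · exfalso
      rw [Finset.not_disjoint_iff] at c2
      obtain ⟨L, hL, hL'⟩ := c2
      obtain ⟨h4, h5, h6⟩ := S.port_union hR h1 hL (by rw [h2]; exact hL') (by rw [h2]; exact c1)
      have h7 : cl BB (R ∪ Rm) = cl BB R ∪ W' := by rw [cl_union, h2]
      have h8 := hmax (cl BB (R ∪ Rm)) ⟨_, h5, rfl⟩ (by
        rw [Finset.ssubset_iff_of_subset (by rw [h7]; exact Finset.union_subset hRW hW)]
        exact ⟨K, hK, h6⟩)
      apply c1
      have h9 : W' = cl BB (R ∪ Rm) :=
        Finset.eq_of_subset_of_card_le (by rw [h7]; exact Finset.subset_union_right) h8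
      rw [h9]
      exact cl_mono Finset.subset_union_left

/-- one step of the induction for arbitrary subsets -/
theorem Setting.GG_step (S : Setting a X Z N BB) {W W' : Finset (Finset V)} {Rm : Finset V}
    (h1 : Tight a X Z N BB Rm) (h2 : cl BB Rm = W')
    (h3 : ∀ R, Tight a X Z N BB R → cl BB R ⊆ W' → R ⊆ Rm) (hW : W' ⊆ W)
    (hmax : ∀ W'', IsCl a X Z N BB W'' → W'' ⊆ W → W''.card ≤ W'.card) :
    GG a X Z N BB W ⊆ (PP a X Z N BB W' ∪ Nout a (X ∪ Z) Rm) ∪ GG a X Z N BB (W \ W') := by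
  intro x hx
  rw [mem_GG] at hx
  obtain ⟨hxX, K, R, hR, hRW⟩ := hx
  by_cases c2 : Disjoint (cl BB R) W'
  · apply Finset.mem_union_right
    refine mem_GG.2 ⟨hxX, K, R, hR, fun L hL => ?_⟩
    exact Finset.mem_sdiff.2 ⟨hRW hL, Finset.disjoint_left.1 c2 hL⟩
  · rw [Finset.not_disjoint_iff] at c2
    obtain ⟨L, hL, hL'⟩ := c2
    have h5 := (S.inter_union hR.1.2.2.1 h1 hL (by rw [h2]; exact hL')).2
    have h7 : cl BB (R ∪ Rm) = cl BB R ∪ W' := by rw [cl_union, h2]
    have h8 := hmax (cl BB (R ∪ Rm)) ⟨_, h5, rfl⟩ (by rw [h7]; exact Finset.union_subset hRW hW)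
    have h9 : W' = cl BB (R ∪ Rm) :=
      Finset.eq_of_subset_of_card_le (by rw [h7]; exact Finset.subset_union_right) h8
    have c1 : cl BB R ⊆ W' := by
      rw [h9]
      exact cl_mono Finset.subset_union_left
    apply Finset.mem_union_left
    by_cases c2 : K ∈ W'
    · apply Finset.mem_union_left
      exact mem_PP.2 ⟨hxX, K, c2, R, hR, c1⟩
    · apply Finset.mem_union_right
      exact hR.1.exit (h3 R hR.1.2.2.1 c1) (by rw [h2]; exact c2)

theorem exists_max_card {α : Type*} (p : Finset α → Prop) {W : Finset α}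
    (h : ∃ W', p W' ∧ W' ⊆ W) :
    ∃ W', p W' ∧ W' ⊆ W ∧ ∀ W'', p W'' → W'' ⊆ W → W''.card ≤ W'.card := by
  obtain ⟨W0, h0, h0'⟩ := h
  obtain ⟨W', hW', hmax⟩ := Finset.exists_max_image (W.powerset.filter p) Finset.card
    ⟨W0, Finset.mem_filter.2 ⟨Finset.mem_powerset.2 h0', h0⟩⟩
  rw [Finset.mem_filter, Finset.mem_powerset] at hW'
  exact ⟨W', hW'.2, hW'.1, fun W'' h1 h2 =>
    hmax W'' (Finset.mem_filter.2 ⟨Finset.mem_powerset.2 h2, h1⟩)⟩

/-- (P2) -/
theorem Setting.port_count (S : Setting a X Z N BB) : ∀ n : ℕ,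
    (∀ W : Finset (Finset V), W.card ≤ n → IsCl a X Z N BB W →
      (PP a X Z N BB W).card + 2 * N ≤ 2 * N * W.card) ∧
    (∀ W : Finset (Finset V), W.card ≤ n → W.Nonempty →
      (GG a X Z N BB W).card + N ≤ 2 * N * W.card) := by
  intro n
  induction n with
  | zero =>
    constructor
    · intro W h1 h2
      have := Finset.card_pos.2 h2.nonempty
      omega
    · intro W h1 h2
      have := Finset.card_pos.2 h2
      omega
  | succ n ih =>
    obtain ⟨ih1, ih2⟩ := ih
    have key1 : ∀ W : Finset (Finset V), W.card ≤ n + 1 → IsCl a X Z N BB W →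
        (PP a X Z N BB W).card + 2 * N ≤ 2 * N * W.card := by
      intro W hW hcl
      have hWpos := Finset.card_pos.2 hcl.nonempty
      by_cases c : ∃ W', (IsCl a X Z N BB W' ∧ W' ⊂ W) ∧ W' ⊆ W
      · obtain ⟨W', ⟨h1, h2⟩, h3, hmax⟩ := exists_max_card
          (fun W' => IsCl a X Z N BB W' ∧ W' ⊂ W) c
        obtain ⟨Rm, h4, h5, h6⟩ := S.exists_max h1
        have h7 := S.PP_step h4 h5 h6 h3 (fun W'' h8 h9 => hmax W'' ⟨h8, h9⟩ h9.1)
        have h8 := (Finset.card_le_card h7).trans ((Finset.card_union_le _ _).trans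
          (Nat.add_le_add_right (Finset.card_union_le _ _) _))
        rw [h4.2.1] at h8
        have h9 := Finset.card_lt_card h2
        have h10 := ih1 W' (by omega) h1
        have h11 : (W \ W').card + W'.card = W.card := Finset.card_sdiff_add_card_eq_card h3
        have h12 : (W \ W').Nonempty := by
          rw [← Finset.card_pos]
          omega
        have h13 := ih2 (W \ W') (by have := Finset.card_pos.2 h1.nonempty; omega) h12
        have h14 : 2 * N * (W \ W').card + 2 * N * W'.card = 2 * N * W.card := by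
          rw [← mul_add, h11]
        omega
      · have h1 : PP a X Z N BB W = ∅ := by
          rw [Finset.eq_empty_iff_forall_notMem]
          intro x hx
          rw [mem_PP] at hx
          obtain ⟨hxX, K, hK, R, hR, hRW⟩ := hx
          apply c
          refine ⟨cl BB R, ⟨⟨R, hR.1.2.2.1, rfl⟩, ?_⟩, hRW⟩
          rw [Finset.ssubset_iff_of_subset hRW]
          exact ⟨K, hK, hR.1.2.2.2.1⟩
        rw [h1, Finset.card_empty]
        have := Nat.mul_le_mul_left (2 * N) hWpos
        omega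
    refine ⟨key1, ?_⟩
    intro W hW hne
    have hWpos := Finset.card_pos.2 hne
    by_cases c : ∃ W', IsCl a X Z N BB W' ∧ W' ⊆ W
    · obtain ⟨W', h1, h3, hmax⟩ := exists_max_card (fun W' => IsCl a X Z N BB W') c
      obtain ⟨Rm, h4, h5, h6⟩ := S.exists_max h1
      have h7 := S.GG_step h4 h5 h6 h3 hmax
      have h8 := (Finset.card_le_card h7).trans ((Finset.card_union_le _ _).trans
        (Nat.add_le_add_right (Finset.card_union_le _ _) _))
      rw [h4.2.1] at h8
      have h9 := Finset.card_le_card h3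
      have h10 := key1 W' (by omega) h1
      have h11 : (W \ W').card + W'.card = W.card := Finset.card_sdiff_add_card_eq_card h3
      have h14 : 2 * N * (W \ W').card + 2 * N * W'.card = 2 * N * W.card := by
        rw [← mul_add, h11]
      by_cases h12 : (W \ W').Nonempty
      · have h13 := ih2 (W \ W') (by have := Finset.card_pos.2 h1.nonempty; omega) h12
        omega
      · rw [Finset.not_nonempty_iff_eq_empty] at h12
        have h13 : GG a X Z N BB (W \ W') = ∅ := by
          rw [h12, Finset.eq_empty_iff_forall_notMem]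
          intro x hx
          rw [mem_GG] at hx
          obtain ⟨hxX, K, R, hR, hRW⟩ := hx
          obtain ⟨L, hL⟩ := hR.1.2.2.1.2.2
          exact absurd (hRW hL) (Finset.notMem_empty L)
        rw [h13, Finset.card_empty] at h8
        rw [h12, Finset.card_empty] at h14
        omega
    · have h1 : GG a X Z N BB W = ∅ := by
        rw [Finset.eq_empty_iff_forall_notMem]
        intro x hx
        rw [mem_GG] at hx
        obtain ⟨hxX, K, R, hR, hRW⟩ := hx
        exact c ⟨cl BB R, ⟨R, hR.1.2.2.1, rfl⟩, hRW⟩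
      rw [h1, Finset.card_empty]
      have := Nat.mul_le_mul_left (2 * N) hWpos
      omega

/-- critical vertices -/
def Crit (a : V → V → Prop) (X Z : Finset V) (N : ℕ) (BB : Finset (Finset V)) (x : V) : Prop :=
  ∃ R, Tight a X Z N BB R ∧ x ∈ Nout a (X ∪ Z) R

/-- The exits of a member of `BB`. -/
theorem Setting.exit_count (S : Setting a X Z N BB) {K : Finset V} (_hK : K ∈ BB) :
    (K.filter (fun x => ∃ R, Tight a X Z N BB R ∧ K ∈ cl BB R ∧ x ∈ Nout a (X ∪ Z) R)).card
      ≤ N := by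
  by_cases hne : (X.powerset.filter (fun R => Tight a X Z N BB R ∧ K ∈ cl BB R)).Nonempty
  · obtain ⟨R0, hR0, hmin⟩ := Finset.exists_min_image _ Finset.card hne
    rw [Finset.mem_filter] at hR0
    obtain ⟨_, h1, h2⟩ := hR0
    refine (Finset.card_le_card (fun x hx => ?_)).trans h1.2.1.le
    rw [Finset.mem_filter] at hx
    obtain ⟨hxK, R, h3, h4, h5⟩ := hx
    have h6 := (S.inter_union h3 h1 h4 h2).1
    have h7 := S.meet h3 h1 h4 h2
    have h8 := hmin (R ∩ R0) (Finset.mem_filter.2 ⟨Finset.mem_powerset.2 h6.1, h6, h7⟩)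
    have h9 : R ∩ R0 = R0 := Finset.eq_of_subset_of_card_le Finset.inter_subset_right h8
    have h10 : R0 ⊆ R := by
      rw [← h9]
      exact Finset.inter_subset_left
    have h11 := S.sub_of_cl h1.1 (S.lt h1) h2 hxK
    rw [Finset.mem_union] at h11
    exact h11.resolve_left (fun h => (mem_Nout.1 h5).1.2 (h10 h))
  · have h1 : K.filter (fun x => ∃ R, Tight a X Z N BB R ∧ K ∈ cl BB R ∧
        x ∈ Nout a (X ∪ Z) R) = ∅ := by
      rw [Finset.eq_empty_iff_forall_notMem]
      intro x hx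
      rw [Finset.mem_filter] at hx
      obtain ⟨hxK, R, h3, h4, h5⟩ := hx
      exact hne ⟨R, Finset.mem_filter.2 ⟨Finset.mem_powerset.2 h3.1, h3, h4⟩⟩
    rw [h1, Finset.card_empty]
    exact Nat.zero_le _

/-- At most `3 N b` critical vertices in the union of `BB`. -/
theorem Setting.crit_count (S : Setting a X Z N BB) (hne : BB.Nonempty) :
    ((BB.biUnion id).filter (Crit a X Z N BB)).card ≤ 3 * N * BB.card := by
  have h1 : (BB.biUnion id).filter (Crit a X Z N BB) ⊆
      (BB.biUnion (fun K => K.filter (fun x => ∃ R, Tight a X Z N BB R ∧ K ∈ cl BB R ∧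
        x ∈ Nout a (X ∪ Z) R))) ∪ GG a X Z N BB BB := by
    intro x hx
    rw [Finset.mem_filter, Finset.mem_biUnion] at hx
    obtain ⟨⟨K, hK, hxK⟩, R, hR, hxR⟩ := hx
    rw [id_eq] at hxK
    by_cases c : K ∈ cl BB R
    · apply Finset.mem_union_left
      rw [Finset.mem_biUnion]
      exact ⟨K, hK, Finset.mem_filter.2 ⟨hxK, R, hR, c, hxR⟩⟩
    · apply Finset.mem_union_right
      obtain ⟨R', hR'⟩ := exists_minPort (a := a) (X := X) (Z := Z) (N := N) (BB := BB)
        ⟨hK, hxK, hR, c, hxR⟩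
      exact mem_GG.2 ⟨S.sub K hK hxK, K, R', hR', Finset.filter_subset _ _⟩
  have h2 := (Finset.card_le_card h1).trans (Finset.card_union_le _ _)
  have h3 : (BB.biUnion (fun K => K.filter (fun x => ∃ R, Tight a X Z N BB R ∧ K ∈ cl BB R ∧
      x ∈ Nout a (X ∪ Z) R))).card ≤ BB.card * N :=
    Finset.card_biUnion_le_card_mul _ _ _ (fun K hK => S.exit_count hK)
  have h4 := (S.port_count BB.card).2 BB le_rfl hne
  nlinarith

/-- (P3) -/
theorem Setting.union_count (S : Setting a X Z N BB) : ∀ n : ℕ, ∀ C : Finset (Finset V),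
    C.card ≤ n → C ⊆ BB → C.Nonempty →
    (∑ K ∈ C, K.card) + 2 * N ≤ (C.biUnion id).card + 2 * N * C.card := by
  intro n
  induction n with
  | zero =>
    intro C h1 _ h2
    have := Finset.card_pos.2 h2
    omega
  | succ n ih =>
    intro C hC hsub hne
    by_cases h1 : C.card = 1
    · obtain ⟨K, rfl⟩ := Finset.card_eq_one.1 h1
      simp
    · have h2 : 1 < C.card := by
        have := Finset.card_pos.2 hne
        omega
      obtain ⟨K1, hK1, K2, hK2, hne12⟩ := Finset.one_lt_card.1 h2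
      have h3 : ¬ Insep a (X ∪ Z) (2 * N) (K1 ∪ K2) := fun h =>
        hne12 (S.max K1 (hsub hK1) K2 (hsub hK2) h)
      unfold Insep at h3
      push Not at h3
      obtain ⟨R, hR, hRN, h4, h5⟩ := h3
      have hio : ∀ K ∈ C, K ⊆ R ∪ Nout a (X ∪ Z) R ∨ Disjoint K R := fun K hK =>
        S.ins K (hsub hK) R hR hRN
      obtain ⟨C1, hC1⟩ : ∃ C1, C1 = C.filter (fun K => K ⊆ R ∪ Nout a (X ∪ Z) R) := ⟨_, rfl⟩
      obtain ⟨C2, hC2⟩ : ∃ C2, C2 = C.filter (fun K => ¬ K ⊆ R ∪ Nout a (X ∪ Z) R) := ⟨_, rfl⟩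
      have hcard : C1.card + C2.card = C.card := by
        rw [hC1, hC2]
        exact Finset.card_filter_add_card_filter_not _
      have hun : C1 ∪ C2 = C := by
        rw [hC1, hC2]
        exact Finset.filter_union_filter_not_eq _ _
      have hdis : Disjoint C1 C2 := by
        rw [hC1, hC2]
        exact Finset.disjoint_filter_filter_not _ _ _
      have hne1 : C1.Nonempty := by
        rw [Finset.disjoint_union_left, not_and_or] at h5
        rcases h5 with h5 | h5
        · exact ⟨K1, by rw [hC1, Finset.mem_filter]; exact ⟨hK1, (hio K1 hK1).resolve_right h5⟩⟩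
        · exact ⟨K2, by rw [hC1, Finset.mem_filter]; exact ⟨hK2, (hio K2 hK2).resolve_right h5⟩⟩
      have hne2 : C2.Nonempty := by
        rw [Finset.union_subset_iff, not_and_or] at h4
        rcases h4 with h4 | h4
        · exact ⟨K1, by rw [hC2, Finset.mem_filter]; exact ⟨hK1, h4⟩⟩
        · exact ⟨K2, by rw [hC2, Finset.mem_filter]; exact ⟨hK2, h4⟩⟩
      have hp1 := Finset.card_pos.2 hne1
      have hp2 := Finset.card_pos.2 hne2
      have hs1 : C1 ⊆ C := by rw [← hun]; exact Finset.subset_union_left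
      have hs2 : C2 ⊆ C := by rw [← hun]; exact Finset.subset_union_right
      have i1 := ih C1 (by omega) (hs1.trans hsub) hne1
      have i2 := ih C2 (by omega) (hs2.trans hsub) hne2
      have hsum : ∑ K ∈ C, K.card = ∑ K ∈ C1, K.card + ∑ K ∈ C2, K.card := by
        rw [← hun, Finset.sum_union hdis]
      have hbu : C.biUnion id = C1.biUnion id ∪ C2.biUnion id := by
        rw [← Finset.union_biUnion, hun]
      have hint : C1.biUnion id ∩ C2.biUnion id ⊆ Nout a (X ∪ Z) R := by
        intro y hy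
        rw [Finset.mem_inter, Finset.mem_biUnion, Finset.mem_biUnion] at hy
        obtain ⟨⟨L1, hL1, hy1⟩, L2, hL2, hy2⟩ := hy
        rw [id_eq] at hy1 hy2
        rw [hC1, Finset.mem_filter] at hL1
        rw [hC2, Finset.mem_filter] at hL2
        have h6 := hL1.2 hy1
        have h7 := Finset.disjoint_left.1 ((hio L2 hL2.1).resolve_left hL2.2) hy2
        rw [Finset.mem_union] at h6
        exact h6.resolve_left h7
      have h6 := Finset.card_le_card hint
      have h7 := Finset.card_union_add_card_inter (C1.biUnion id) (C2.biUnion id)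
      rw [← hbu] at h7
      have h8 : 2 * N * C1.card + 2 * N * C2.card = 2 * N * C.card := by
        rw [← mul_add, hcard]
      omega

/-- Some vertex of the union of `BB` is not critical. -/
theorem Setting.exists_not_crit (S : Setting a X Z N BB) (hne : BB.Nonempty) :
    ∃ K ∈ BB, ∃ x ∈ K, ¬ Crit a X Z N BB x := by
  by_contra hcon
  push Not at hcon
  have h1 : (BB.biUnion id).filter (Crit a X Z N BB) = BB.biUnion id := by
    rw [Finset.filter_eq_self]
    intro x hx
    rw [Finset.mem_biUnion] at hx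
    obtain ⟨K, hK, hxK⟩ := hx
    exact hcon K hK x hxK
  have h2 := S.crit_count hne
  rw [h1] at h2
  have h3 := S.union_count BB.card BB le_rfl (Finset.Subset.refl _) hne
  have h4 : BB.card * (5 * N + 1) ≤ ∑ K ∈ BB, K.card := by
    have := Finset.card_nsmul_le_sum BB Finset.card (5 * N + 1) (fun K hK => S.big K hK)
    rwa [smul_eq_mul] at this
  have h5 := Finset.card_pos.2 hne
  nlinarith

end

end Pool.Agent.OSX54
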