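import Pool.Agent.OSX54.Order
import Pool.Agent.MDP.ThmA

/-! List colourings by acyclic sets: every vertex has at most `m` forbidden colours. -/

open Classical

namespace Pool.Agent.OSX54

open Pool.Agent.Mader Pool.Agent.MDP

universe u

variable {V : Type u}

/-- `D[X]` is acyclically colourable from the colours `< F`, whatever `≤ m` colours are forbidden
at every vertex. -/
def LCol (a : V → V → Prop) (X : Finset V) (F m : ℕ) : Prop :=
  ∀ φ : V → Finset ℕ, (∀ v, (φ v).card ≤ m) →
    ∃ c : V → ℕ, (∀ v ∈ X, c v < F ∧ c v ∉ φ v) ∧ ∀ i, Acyc a (X.filter (fun v => c v = i))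

theorem LCol.col {a : V → V → Prop} {X : Finset V} {F m : ℕ} (h : LCol a X F m) : Col a X F := by
  obtain ⟨c, h1, h2⟩ := h (fun _ => ∅) (fun _ => by simp)
  exact ⟨c, fun v hv => (h1 v hv).1, h2⟩

/-- From ordinary colourings to list colourings, with the factor `m + 1`. -/
theorem LCol.of_col {a : V → V → Prop} {X : Finset V} {k m F : ℕ} (h : Col a X k)
    (hF : k * (m + 1) ≤ F) : LCol a X F m := by
  intro φ hφ
  obtain ⟨c, h1, h2⟩ := h
  have hex : ∀ v, ∃ j, j < m + 1 ∧ c v * (m + 1) + j ∉ φ v := by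
    intro v
    by_contra hcon
    push Not at hcon
    have h3 : (Finset.range (m + 1)).image (fun j => c v * (m + 1) + j) ⊆ φ v := by
      intro x hx
      rw [Finset.mem_image] at hx
      obtain ⟨j, hj, rfl⟩ := hx
      exact hcon j (Finset.mem_range.1 hj)
    have h4 := Finset.card_le_card h3
    rw [Finset.card_image_of_injective _ (fun x y hxy => by
      simpa using hxy), Finset.card_range] at h4
    have := hφ v
    omega
  choose j hj1 hj2 using hex
  have hdiv : ∀ v, (c v * (m + 1) + j v) / (m + 1) = c v := by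
    intro v
    rw [mul_comm, Nat.mul_add_div (Nat.succ_pos m), Nat.div_eq_of_lt (hj1 v), add_zero]
  refine ⟨fun v => c v * (m + 1) + j v, ?_, ?_⟩
  · intro v hv
    refine ⟨?_, hj2 v⟩
    have h3 : (c v + 1) * (m + 1) ≤ k * (m + 1) := Nat.mul_le_mul_right _ (h1 v hv)
    have h4 := hj1 v
    change c v * (m + 1) + j v < F
    rw [add_mul, one_mul] at h3
    omega
  · intro i
    refine (h2 (i / (m + 1))).mono ?_
    intro v hv
    rw [Finset.mem_filter] at hv ⊢
    refine ⟨hv.1, ?_⟩
    rw [← hv.2]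
    exact (hdiv v).symm

theorem LCol.mono {a : V → V → Prop} {X Y : Finset V} {F F' m : ℕ} (h : LCol a X F m)
    (hY : Y ⊆ X) (hF : F ≤ F') : LCol a Y F' m := by
  intro φ hφ
  obtain ⟨c, h1, h2⟩ := h φ hφ
  refine ⟨c, fun v hv => ⟨(h1 v (hY hv)).1.trans_le hF, (h1 v (hY hv)).2⟩, fun i => (h2 i).mono ?_⟩
  exact Finset.filter_subset_filter _ hY

/-- Colouring with a shifted palette. -/
theorem LCol.shift {a : V → V → Prop} {X : Finset V} {F m : ℕ} (h : LCol a X F m) (b : ℕ)
    (φ : V → Finset ℕ) (hφ : ∀ v, (φ v).card ≤ m) :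
    ∃ c : V → ℕ, (∀ v ∈ X, b ≤ c v ∧ c v < b + F ∧ c v ∉ φ v) ∧
      ∀ i, Acyc a (X.filter (fun v => c v = i)) := by
  obtain ⟨c, h1, h2⟩ := h (fun v => (φ v).image (fun x => x - b))
    (fun v => Finset.card_image_le.trans (hφ v))
  refine ⟨fun v => b + c v, ?_, ?_⟩
  · intro v hv
    obtain ⟨h3, h4⟩ := h1 v hv
    refine ⟨Nat.le_add_right _ _, by simpa using h3, fun h5 => h4 ?_⟩
    rw [Finset.mem_image]
    exact ⟨b + c v, h5, by omega⟩
  · intro i
    refine (h2 (i - b)).mono ?_
    intro v hv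
    rw [Finset.mem_filter] at hv ⊢
    have h3 : b + c v = i := hv.2
    exact ⟨hv.1, by omega⟩

/-- Reversal. -/
theorem acyc_rev {a : V → V → Prop} {X : Finset V} (h : Acyc a X) : Acyc (fun x y => a y x) X := by
  intro Y hY hne
  induction hn : Y.card generalizing Y with
  | zero =>
    rw [Finset.card_eq_zero] at hn
    rw [hn] at hne
    exact absurd hne Finset.not_nonempty_empty
  | succ n ih =>
    obtain ⟨u, hu, hs⟩ := h Y hY hne
    by_cases hne' : (Y.erase u).Nonempty
    · obtain ⟨w, hw, hws⟩ := ih (Y := Y.erase u) ((Finset.erase_subset _ _).trans hY) hne'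
        (by rw [Finset.card_erase_of_mem hu, hn]; rfl)
      refine ⟨w, Finset.mem_of_mem_erase hw, fun v hv hav => ?_⟩
      by_cases hvu : v = u
      · rw [hvu] at hav
        exact hs w (Finset.mem_of_mem_erase hw) hav
      · exact hws v (Finset.mem_erase.2 ⟨hvu, hv⟩) hav
    · refine ⟨u, hu, fun v hv hav => ?_⟩
      by_cases hvu : v = u
      · rw [hvu] at hav
        exact hs u hu hav
      · exact hne' ⟨v, Finset.mem_erase.2 ⟨hvu, hv⟩⟩

theorem LCol.rev {a : V → V → Prop} {X : Finset V} {F m : ℕ} (h : LCol a X F m) :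
    LCol (fun x y => a y x) X F m := by
  intro φ hφ
  obtain ⟨c, h1, h2⟩ := h φ hφ
  exact ⟨c, h1, fun i => acyc_rev (h2 i)⟩

end Pool.Agent.OSX54
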