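import Pool.Agent.OSX54.ListCol

/-! The one-sided theorem in list form. -/

open Classical

namespace Pool.Agent.OSX54

open Pool.Agent.Mader Pool.Agent.MDP

universe u

variable {V : Type u}

/-- Reachability off small sets gives inseparability. -/
theorem insep_of_reach {a : V → V → Prop} {S Y W : Finset V} {m c : ℕ} (hSY : S ⊆ Y) (hc : m ≤ c + 1)
    (h : ∀ C : Finset V, C.card ≤ c → ∀ u ∈ W, u ∉ C → ∀ v ∈ W, v ∉ C →
      Relation.ReflTransGen (fun x y => a x y ∧ y ∈ S ∧ y ∉ C) u v) : Insep a Y m W := by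
  intro R hR hN
  by_contra hcon
  push Not at hcon
  obtain ⟨h1, h2⟩ := hcon
  rw [Finset.not_disjoint_iff] at h2
  obtain ⟨u, huW, huR⟩ := h2
  rw [Finset.not_subset] at h1
  obtain ⟨v, hvW, hvR⟩ := h1
  rw [Finset.mem_union, not_or] at hvR
  have huN : u ∉ Nout a Y R := fun hu => (mem_Nout.1 hu).1.2 huR
  have hpath := h (Nout a Y R) (by omega) u huW huN v hvW hvR.2
  have hin : ∀ x, Relation.ReflTransGen (fun x y => a x y ∧ y ∈ S ∧ y ∉ Nout a Y R) u x →
      x ∈ R := by
    intro x hx
    induction hx with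
    | refl => exact huR
    | tail _ hs ih =>
      by_contra hxR
      exact hs.2.2 (mem_Nout.2 ⟨⟨hSY hs.2.1, hxR⟩, _, ih, hs.1⟩)
  exact hvR.1 (hin v hpath)

/-- the layers -/
noncomputable def QQ (a : V → V → Prop) (X Z Q0 : Finset V) (P : ℕ) : ℕ → Finset V
  | 0 => Q0
  | i + 1 => QQ a X Z Q0 P i ∪ X.filter (fun x => Att a (insert x (QQ a X Z Q0 P i)) Z P x)

section

variable {a : V → V → Prop} {X Z Q0 : Finset V} {P : ℕ}

theorem QQ_sub (h0 : Q0 ⊆ X) : ∀ i, QQ a X Z Q0 P i ⊆ X
  | 0 => h0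
  | i + 1 => by
    rw [QQ]
    exact Finset.union_subset (QQ_sub h0 i) (Finset.filter_subset _ _)

theorem QQ_mono {i j : ℕ} (hij : i ≤ j) : QQ a X Z Q0 P i ⊆ QQ a X Z Q0 P j := by
  induction hij with
  | refl => exact Finset.Subset.refl _
  | step h ih =>
    refine ih.trans ?_
    intro z hz
    rw [QQ]
    exact Finset.mem_union_left _ hz

theorem QQ_att {i : ℕ} {x : V} (hx : x ∈ QQ a X Z Q0 P (i + 1)) (hx' : x ∉ QQ a X Z Q0 P i) :
    Att a (insert x (QQ a X Z Q0 P i)) Z P x := by
  rw [QQ, Finset.mem_union, Finset.mem_filter] at hx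
  exact (hx.resolve_left hx').2

/-- the index of a vertex -/
theorem QQ_index {i : ℕ} {x : V} (hx : x ∈ QQ a X Z Q0 P i) (hx' : x ∉ Q0) :
    ∃ j, j < i ∧ x ∈ QQ a X Z Q0 P (j + 1) ∧ x ∉ QQ a X Z Q0 P j := by
  induction i with
  | zero => exact absurd hx hx'
  | succ i ih =>
    by_cases h : x ∈ QQ a X Z Q0 P i
    · obtain ⟨j, h1, h2⟩ := ih h
      exact ⟨j, by omega, h2⟩
    · exact ⟨i, by omega, hx, h⟩

theorem QQ_full (h0 : Q0 ⊆ X)
    (hg : ∀ Q, Q0 ⊆ Q → Q ⊂ X → ∃ x ∈ X, x ∉ Q ∧ Att a (insert x Q) Z P x) :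
    QQ a X Z Q0 P (X.card + 1) = X := by
  have h1 : ∀ i, QQ a X Z Q0 P i = X ∨ i ≤ (QQ a X Z Q0 P i).card := by
    intro i
    induction i with
    | zero => exact Or.inr (Nat.zero_le _)
    | succ i ih =>
      by_cases he : QQ a X Z Q0 P i = X
      · left
        apply Finset.Subset.antisymm (QQ_sub h0 _)
        have h2 := QQ_mono (a := a) (X := X) (Z := Z) (Q0 := Q0) (P := P) (Nat.le_succ i)
        rwa [he] at h2
      · right
        have hi := ih.resolve_left he
        obtain ⟨x, hx, hxQ, hatt⟩ := hg (QQ a X Z Q0 P i) (QQ_mono (Nat.zero_le i))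
          ((QQ_sub h0 i).ssubset_of_ne he)
        have h2 : QQ a X Z Q0 P i ⊂ QQ a X Z Q0 P (i + 1) := by
          rw [Finset.ssubset_iff_of_subset (QQ_mono (Nat.le_succ i))]
          refine ⟨x, ?_, hxQ⟩
          rw [QQ, Finset.mem_union, Finset.mem_filter]
          exact Or.inr ⟨hx, hatt⟩
        have := Finset.card_lt_card h2
        omega
  rcases h1 (X.card + 1) with h | h
  · exact h
  · have := Finset.card_le_card (QQ_sub (a := a) (Z := Z) (P := P) h0 (X.card + 1))
    omega

/-- A vertex of a layer has fewer than `P` out-neighbours in the layers more than one step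
below. -/
theorem QQ_low (h0 : Q0 ⊆ X) (hXZ : Disjoint X Z) {i : ℕ} {v : V}
    (hv : v ∈ QQ a X Z Q0 P (i + 1)) (hv' : v ∉ QQ a X Z Q0 P i) :
    ((QQ a X Z Q0 P (i - 1) \ Q0).filter (fun y => a v y)).card < P ∨ P = 0 := by
  by_contra hcon
  rw [not_or] at hcon
  obtain ⟨hcon, hP⟩ := hcon
  push Not at hcon
  have hpos : 0 < ((QQ a X Z Q0 P (i - 1) \ Q0).filter (fun y => a v y)).card := by omega
  obtain ⟨y0, hy0⟩ := Finset.card_pos.1 hpos
  rw [Finset.mem_filter, Finset.mem_sdiff] at hy0
  have hi : 1 ≤ i - 1 := by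
    by_contra h
    have h1 : i - 1 = 0 := by omega
    rw [h1] at hy0
    exact hy0.1.2 hy0.1.1
  have hvX : v ∈ X := QQ_sub h0 _ hv
  apply hv'
  have h1 : i = (i - 1) + 1 := by omega
  rw [h1, QQ, Finset.mem_union, Finset.mem_filter]
  right
  refine ⟨hvX, ?_⟩
  have hins : insert v (QQ a X Z Q0 P (i - 1)) ⊆ X := Finset.insert_subset hvX (QQ_sub h0 _)
  intro R hR hvR
  by_contra hlt
  push Not at hlt
  obtain ⟨y, hy, hyN⟩ : ∃ y ∈ (QQ a X Z Q0 P (i - 1) \ Q0).filter (fun y => a v y),
      y ∉ Nout a (insert v (QQ a X Z Q0 P (i - 1)) ∪ Z) R := by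
    by_contra hall
    push Not at hall
    have := Finset.card_le_card hall
    omega
  rw [Finset.mem_filter, Finset.mem_sdiff] at hy
  obtain ⟨⟨hyQ, hyQ0⟩, hvy⟩ := hy
  have hyR : y ∈ R := by
    by_contra hyR
    exact hyN (mem_Nout.2 ⟨⟨Finset.mem_union_left _ (Finset.mem_insert_of_mem hyQ), hyR⟩,
      v, hvR, hvy⟩)
  obtain ⟨j, hj, hyj, hyj'⟩ := QQ_index hyQ hyQ0
  have hatt : Att a (insert v (QQ a X Z Q0 P (i - 1))) Z P y := by
    refine (QQ_att hyj hyj').mono (Finset.mem_insert_self _ _) ?_ (hXZ.mono_left hins)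
    exact Finset.insert_subset (Finset.mem_insert_of_mem hyQ)
      ((QQ_mono hj.le).trans (Finset.subset_insert _ _))
  have := hatt R hR hyR
  omega

end

/-- THE ONE-SIDED THEOREM (list form). -/
theorem one_sided {a : V → V → Prop} (hirr : ∀ v, ¬ a v v) {X T Z : Finset V} {P k m : ℕ}
    (hP : 0 < P) (hTX : T ⊆ X) (hXZ : Disjoint X Z) (hatt : ∀ v ∈ T, Att a X Z P v)
    (h : ¬ LCol a T (9 * P * (m + 1) + 2 * k) m) :
    ∃ W ⊆ T, ¬ LCol a W k (m + P) ∧ ∀ w ∈ W, Att a (insert w (X \ W)) Z P w := by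
  by_contra hcon
  push Not at hcon
  have hgood : ∀ W ⊆ T, (∀ w ∈ W, Att a (insert w (X \ W)) Z P w) → LCol a W k (m + P) := by
    intro W hW h1
    by_contra h2
    obtain ⟨w, hw, h3⟩ := hcon W hW h2
    exact h3 (h1 w hw)
  apply h
  obtain ⟨Xi, hXiT, hXi, hg⟩ := order (a := a) (Z := Z) (rich := fun K => 5 * P + 1 ≤ K.card) hP
    (fun K K' h1 h2 => h2.trans (Finset.card_le_card h1)) (fun K h1 => h1) hTX hXZ
    (fun K hK _ _ x hx => hatt x (hK hx))
  -- the junk is cheap
  have hcolXi : Col a Xi (9 * P) := by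
    by_contra hc
    have e1 : 9 * P = 5 * P + 2 * (2 * P) := by ring
    rw [e1] at hc
    obtain ⟨W, hW, hWc, hlink⟩ := thmA (a := a) (S := Xi) (k := 5 * P) (c := 2 * P) (by omega) hc
    refine hXi W hW (insep_of_reach (S := Xi) ?_ (by omega) hlink) ?_
    · exact Finset.subset_union_right.trans Finset.subset_union_left
    · by_contra hlt
      push Not at hlt
      exact hWc ((Col.card hirr W).mono (Finset.Subset.refl _) (by omega))
  obtain ⟨A, hA⟩ : ∃ A, A = 9 * P * (m + 1) := ⟨_, rfl⟩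
  have hlXi : LCol a Xi A m := LCol.of_col hcolXi hA.ge
  rw [← hA]
  intro φ hφ
  obtain ⟨Q0, hQ0⟩ : ∃ Q0, Q0 = X \ T ∪ Xi := ⟨_, rfl⟩
  rw [← hQ0] at hg
  have h0 : Q0 ⊆ X := by
    rw [hQ0]
    exact Finset.union_subset Finset.sdiff_subset (hXiT.trans hTX)
  have hfull := QQ_full (a := a) (Z := Z) (P := P) h0 (fun Q h1 h2 => by
    obtain ⟨x, hx, h3⟩ := hg Q h1 h2
    exact ⟨x, hTX hx, h3⟩)
  obtain ⟨Q, hQ⟩ : ∃ Q : ℕ → Finset V, Q = QQ a X Z Q0 P := ⟨_, rfl⟩
  obtain ⟨base, hbase⟩ : ∃ base : ℕ → ℕ, base = fun j => A + (j % 2) * k := ⟨_, rfl⟩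
  have hbaseA : ∀ j, A ≤ base j := fun j => by
    rw [hbase]
    exact Nat.le_add_right _ _
  have hbaseF : ∀ j, base j + k ≤ A + 2 * k := fun j => by
    rw [hbase]
    rcases Nat.mod_two_eq_zero_or_one j with h1 | h1
    · simp only [h1]; omega
    · simp only [h1]; omega
  have hbase2 : ∀ i j x, base i ≤ x → x < base i + k → base j ≤ x → x < base j + k →
      i % 2 = j % 2 := by
    intro i j x h1 h2 h3 h4
    rw [hbase] at h1 h2 h3 h4
    simp only at h1 h2 h3 h4
    rcases Nat.mod_two_eq_zero_or_one i with e1 | e1 <;>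
      rcases Nat.mod_two_eq_zero_or_one j with e2 | e2 <;> rw [e1] at h1 h2 <;>
      rw [e2] at h3 h4 <;> omega
  have hTQ : ∀ i, ∀ v ∈ X, v ∉ Q i → v ∈ T := by
    intro i v hvX hv
    by_contra hvT
    apply hv
    rw [hQ]
    apply QQ_mono (Nat.zero_le i)
    change v ∈ Q0
    rw [hQ0]
    exact Finset.mem_union_left _ (Finset.mem_sdiff.2 ⟨hvX, hvT⟩)
  have key : ∀ i, ∃ c : V → ℕ, (∀ v ∈ Q i ∩ T, c v < A + 2 * k ∧ c v ∉ φ v) ∧
      (∀ v ∈ Xi, c v < A) ∧
      (∀ j < i, ∀ v ∈ Q (j + 1) \ Q j, base j ≤ c v ∧ c v < base j + k) ∧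
      ∀ x, Acyc a ((Q i ∩ T).filter (fun v => c v = x)) := by
    intro i
    induction i with
    | zero =>
      obtain ⟨c, h1, h2⟩ := hlXi φ hφ
      have hQ0T : Q 0 ∩ T = Xi := by
        rw [hQ]
        change Q0 ∩ T = Xi
        rw [hQ0]
        ext v
        simp only [Finset.mem_inter, Finset.mem_union, Finset.mem_sdiff]
        constructor
        · rintro ⟨h3 | h3, h4⟩
          · exact absurd h4 h3.2
          · exact h3
        · intro h3
          exact ⟨Or.inr h3, hXiT h3⟩
      rw [hQ0T]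
      refine ⟨c, fun v hv => ⟨(h1 v hv).1.trans_le (Nat.le_add_right _ _), (h1 v hv).2⟩,
        fun v hv => (h1 v hv).1, fun j hj => absurd hj (Nat.not_lt_zero j), h2⟩
    | succ i ih =>
      obtain ⟨c, hc1, hc2, hc3, hc4⟩ := ih
      obtain ⟨L, hL⟩ : ∃ L, L = Q (i + 1) \ Q i := ⟨_, rfl⟩
      have hLX : L ⊆ X := by
        rw [hL, hQ]
        exact Finset.sdiff_subset.trans (QQ_sub h0 _)
      have hLT : L ⊆ T := by
        intro v hv
        apply hTQ i v (hLX hv)
        rw [hL] at hv
        exact (Finset.mem_sdiff.1 hv).2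
      have hLmem : ∀ v ∈ L, v ∈ QQ a X Z Q0 P (i + 1) ∧ v ∉ QQ a X Z Q0 P i := by
        intro v hv
        rw [hL, hQ] at hv
        exact Finset.mem_sdiff.1 hv
      have hLgood : LCol a L k (m + P) := by
        apply hgood L hLT
        intro w hw
        obtain ⟨h1, h2⟩ := hLmem w hw
        refine (QQ_att h1 h2).mono (Finset.mem_insert_self _ _) ?_
          (hXZ.mono_left (Finset.insert_subset (hLX hw) Finset.sdiff_subset))
        apply Finset.insert_subset_insert
        intro y hy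
        refine Finset.mem_sdiff.2 ⟨QQ_sub h0 _ hy, fun hyL => ?_⟩
        exact (hLmem y hyL).2 hy
      obtain ⟨φ', hφ'⟩ : ∃ φ' : V → Finset ℕ, φ' = fun v => if v ∈ L then
          φ v ∪ ((QQ a X Z Q0 P (i - 1) \ Q0).filter (fun y => a v y)).image c else ∅ := ⟨_, rfl⟩
      have hφ'c : ∀ v, (φ' v).card ≤ m + P := by
        intro v
        rw [hφ']
        by_cases hv : v ∈ L
        · simp only [if_pos hv]
          obtain ⟨h1, h2⟩ := hLmem v hv
          have h3 := (QQ_low h0 hXZ h1 h2).resolve_right (by omega)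
          have h4 := Finset.card_union_le (φ v)
            (((QQ a X Z Q0 P (i - 1) \ Q0).filter (fun y => a v y)).image c)
          have h5 := Finset.card_image_le (f := c)
            (s := (QQ a X Z Q0 P (i - 1) \ Q0).filter (fun y => a v y))
          have h6 := hφ v
          omega
        · simp only [if_neg hv, Finset.card_empty]
          exact Nat.zero_le _
      obtain ⟨c', hc'1, hc'2⟩ := hLgood.shift (base i) φ' hφ'c
      have hLi : ∀ v ∈ Q i, v ∉ L := by
        intro v hv hvL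
        rw [hL] at hvL
        exact (Finset.mem_sdiff.1 hvL).2 hv
      have hXiQ : ∀ v ∈ Xi, v ∈ Q i := by
        intro v hv
        rw [hQ]
        apply QQ_mono (Nat.zero_le i)
        change v ∈ Q0
        rw [hQ0]
        exact Finset.mem_union_right _ hv
      refine ⟨fun v => if v ∈ L then c' v else c v, ?_, ?_, ?_, ?_⟩
      · intro v hv
        rw [Finset.mem_inter] at hv
        by_cases hvL : v ∈ L
        · simp only [if_pos hvL]
          obtain ⟨h1, h2, h3⟩ := hc'1 v hvL
          refine ⟨h2.trans_le (hbaseF i), fun h4 => h3 ?_⟩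
          rw [hφ']
          simp only [if_pos hvL]
          exact Finset.mem_union_left _ h4
        · simp only [if_neg hvL]
          apply hc1
          refine Finset.mem_inter.2 ⟨?_, hv.2⟩
          by_contra hvQ
          apply hvL
          rw [hL]
          exact Finset.mem_sdiff.2 ⟨hv.1, hvQ⟩
      · intro v hv
        simp only [if_neg (hLi v (hXiQ v hv))]
        exact hc2 v hv
      · intro j hj v hv
        by_cases hji : j = i
        · subst hji
          rw [← hL] at hv
          simp only [if_pos hv]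
          exact ⟨(hc'1 v hv).1, (hc'1 v hv).2.1⟩
        · have hvQ : v ∈ Q i := by
            have h1 := (Finset.mem_sdiff.1 hv).1
            rw [hQ] at h1 ⊢
            exact QQ_mono (by omega) h1
          simp only [if_neg (hLi v hvQ)]
          exact hc3 j (by omega) v hv
      · intro x S hS hne
        have hS' : ∀ v ∈ S, (v ∈ Q (i + 1) ∧ v ∈ T) ∧ (if v ∈ L then c' v else c v) = x := by
          intro v hv
          have h1 := hS hv
          rw [Finset.mem_filter, Finset.mem_inter] at h1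
          exact h1
        by_cases hne1 : (S.filter (fun v => v ∈ L)).Nonempty
        · obtain ⟨w, hw, hws⟩ := hc'2 x (S.filter (fun v => v ∈ L)) (by
            intro v hv
            rw [Finset.mem_filter] at hv ⊢
            refine ⟨hv.2, ?_⟩
            have h1 := (hS' v hv.1).2
            rwa [if_pos hv.2] at h1) hne1
          rw [Finset.mem_filter] at hw
          refine ⟨w, hw.1, fun v hv hav => ?_⟩
          by_cases hvL : v ∈ L
          · exact hws v (Finset.mem_filter.2 ⟨hv, hvL⟩) hav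
          · obtain ⟨⟨h1, h2⟩, h3⟩ := hS' v hv
            rw [if_neg hvL] at h3
            have h4 := (hS' w hw.1).2
            rw [if_pos hw.2] at h4
            obtain ⟨h5, h6, h7⟩ := hc'1 w hw.2
            rw [h4] at h5 h6 h7
            have hvQi : v ∈ Q i := by
              by_contra hvQ
              apply hvL
              rw [hL]
              exact Finset.mem_sdiff.2 ⟨h1, hvQ⟩
            have hvXi : v ∉ Xi := by
              intro hvXi
              have h8 := hc2 v hvXi
              have h9 := hbaseA i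
              omega
            have hvQ0 : v ∉ Q0 := by
              rw [hQ0, Finset.mem_union, Finset.mem_sdiff]
              rintro (h8 | h8)
              · exact h8.2 h2
              · exact hvXi h8
            have hvQi' := hvQi
            rw [hQ] at hvQi'
            obtain ⟨j, hj, h8, h9⟩ := QQ_index hvQi' hvQ0
            have h10 := hc3 j hj v (by
              rw [hQ]
              exact Finset.mem_sdiff.2 ⟨h8, h9⟩)
            rw [h3] at h10
            have h11 := hbase2 i j x h5 h6 h10.1 h10.2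
            have h12 : j + 1 ≤ i - 1 := by omega
            apply h7
            rw [hφ']
            simp only [if_pos hw.2]
            apply Finset.mem_union_right
            rw [Finset.mem_image]
            refine ⟨v, Finset.mem_filter.2 ⟨Finset.mem_sdiff.2 ⟨QQ_mono h12 h8, hvQ0⟩, hav⟩, h3⟩
        · refine hc4 x S ?_ hne
          intro v hv
          obtain ⟨⟨h1, h2⟩, h3⟩ := hS' v hv
          have hvL : v ∉ L := fun hvL => hne1 ⟨v, Finset.mem_filter.2 ⟨hv, hvL⟩⟩
          rw [if_neg hvL] at h3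
          refine Finset.mem_filter.2 ⟨Finset.mem_inter.2 ⟨?_, h2⟩, h3⟩
          by_contra hvQ
          apply hvL
          rw [hL]
          exact Finset.mem_sdiff.2 ⟨h1, hvQ⟩
  obtain ⟨c, h1, -, -, h4⟩ := key (X.card + 1)
  have hT : Q (X.card + 1) ∩ T = T := by
    rw [hQ, hfull]
    exact Finset.inter_eq_right.2 hTX
  rw [hT] at h1 h4
  exact ⟨c, h1, h4⟩

end Pool.Agent.OSX54
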