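import Pool.Agent.OSX54.Count

/-! The order theorem. -/

open Classical

namespace Pool.Agent.OSX54

universe u

variable {V : Type u} {a : V → V → Prop} {Z : Finset V} {N : ℕ}

/-- invariant (I): every vertex of a rich `2N`-inseparable subset of `T` is attached -/
def Inv (a : V → V → Prop) (Z : Finset V) (N : ℕ) (rich : Finset V → Prop) (T X : Finset V) :
    Prop :=
  ∀ K ⊆ T, Insep a (X ∪ Z) (2 * N) K → rich K → ∀ x ∈ K, Att a X Z N x

/-- Deletion of one vertex of `T`. -/
theorem deletion {rich : Finset V → Prop} (hN : 0 < N)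
    (hmono : ∀ K K', K ⊆ K' → rich K → rich K') (hbig : ∀ K, rich K → 5 * N + 1 ≤ K.card)
    {T X : Finset V} (hTX : T ⊆ X) (hXZ : Disjoint X Z) (hI : Inv a Z N rich T X)
    (hex : ∃ K ⊆ T, Insep a (X ∪ Z) (2 * N) K ∧ rich K) :
    ∃ x ∈ T, Att a X Z N x ∧ Inv a Z N rich (T.erase x) (X.erase x) := by
  obtain ⟨BB, hBB⟩ : ∃ BB : Finset (Finset V), BB = T.powerset.filter (fun K =>
      (Insep a (X ∪ Z) (2 * N) K ∧ rich K) ∧
      ∀ K' ⊆ T, Insep a (X ∪ Z) (2 * N) K' → K ⊆ K' → K' = K) := ⟨_, rfl⟩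
  have mem : ∀ K, K ∈ BB ↔ K ⊆ T ∧ (Insep a (X ∪ Z) (2 * N) K ∧ rich K) ∧
      ∀ K' ⊆ T, Insep a (X ∪ Z) (2 * N) K' → K ⊆ K' → K' = K := by
    intro K
    rw [hBB, Finset.mem_filter, Finset.mem_powerset]
  -- every rich inseparable set is contained in a member of `BB`
  have hext : ∀ K ⊆ T, Insep a (X ∪ Z) (2 * N) K → rich K → ∃ K' ∈ BB, K ⊆ K' := by
    intro K hK h1 h2
    obtain ⟨K', hK', hmax⟩ := Finset.exists_max_image
      (T.powerset.filter (fun K' => Insep a (X ∪ Z) (2 * N) K' ∧ K ⊆ K')) Finset.card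
      ⟨K, Finset.mem_filter.2 ⟨Finset.mem_powerset.2 hK, h1, Finset.Subset.refl _⟩⟩
    rw [Finset.mem_filter, Finset.mem_powerset] at hK'
    refine ⟨K', (mem K').2 ⟨hK'.1, ⟨hK'.2.1, hmono _ _ hK'.2.2 h2⟩, ?_⟩, hK'.2.2⟩
    intro K'' h3 h4 h5
    exact (Finset.eq_of_subset_of_card_le h5 (hmax K'' (Finset.mem_filter.2
      ⟨Finset.mem_powerset.2 h3, h4, hK'.2.2.trans h5⟩))).symm
  have S : Setting a X Z N BB := by
    refine ⟨hN, fun K hK => ((mem K).1 hK).1.trans hTX, fun K hK => ((mem K).1 hK).2.1.1,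
      fun K hK => hbig K ((mem K).1 hK).2.1.2, fun K hK x hx => ?_, fun K hK K' hK' h => ?_⟩
    · exact hI K ((mem K).1 hK).1 ((mem K).1 hK).2.1.1 ((mem K).1 hK).2.1.2 x hx
    · have h1 := (mem K).1 hK
      have h2 := (mem K').1 hK'
      have h3 := h1.2.2 _ (Finset.union_subset h1.1 h2.1) h Finset.subset_union_left
      have h4 := h2.2.2 _ (Finset.union_subset h1.1 h2.1) h Finset.subset_union_right
      exact h3.symm.trans h4
  have hne : BB.Nonempty := by
    obtain ⟨K, h1, h2, h3⟩ := hex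
    obtain ⟨K', h4, _⟩ := hext K h1 h2 h3
    exact ⟨K', h4⟩
  obtain ⟨K, hK, x, hxK, hcrit⟩ := S.exists_not_crit hne
  refine ⟨x, ((mem K).1 hK).1 hxK, S.att K hK x hxK, ?_⟩
  intro K' hK' h1 h2 z hz R hR hzR
  by_contra hlt
  push Not at hlt
  have hxK' : x ∉ K' := fun h => Finset.notMem_erase x T (hK' h)
  have hxZ : x ∉ Z := Finset.disjoint_left.1 hXZ (S.sub K hK hxK)
  have he : (X ∪ Z).erase x = X.erase x ∪ Z := by
    rw [Finset.erase_union_distrib, Finset.erase_eq_of_notMem hxZ]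
  have h3 : Insep a (X ∪ Z) (2 * N) K' := by
    apply Insep.of_erase hxK'
    rw [he]
    exact h1
  obtain ⟨L, hL, hL'⟩ := hext K' (hK'.trans (Finset.erase_subset _ _)) h3 h2
  have hRX : R ⊆ X := hR.trans (Finset.erase_subset _ _)
  have hLR : L ∈ cl BB R := by
    rw [mem_cl, Finset.not_disjoint_iff]
    exact ⟨hL, z, hL' hz, hzR⟩
  have h4 := S.le_of_cl hRX hLR
  have h5 : Nout a (X ∪ Z) R ⊆ insert x (Nout a (X.erase x ∪ Z) R) := by
    intro y hy
    rw [Finset.mem_insert]
    by_cases hyx : y = x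
    · exact Or.inl hyx
    · right
      rw [← he, mem_Nout, Finset.mem_erase]
      rw [mem_Nout] at hy
      exact ⟨⟨⟨hyx, hy.1.1⟩, hy.1.2⟩, hy.2⟩
  have h6 := (Finset.card_le_card h5).trans (Finset.card_insert_le _ _)
  have h7 : x ∈ Nout a (X ∪ Z) R := by
    by_contra hx
    have h8 : Nout a (X ∪ Z) R ⊆ Nout a (X.erase x ∪ Z) R := by
      intro y hy
      have h9 := h5 hy
      rw [Finset.mem_insert] at h9
      exact h9.resolve_left (fun e => hx (e ▸ hy))
    have := Finset.card_le_card h8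
    omega
  exact hcrit ⟨R, ⟨hRX, by omega, L, hLR⟩, h7⟩

/-- The order theorem in a form without an order: there is `Xi ⊆ T` without rich inseparable sets
such that every set between `(X \ T) ∪ Xi` and `X`, not `X`, can be enlarged by an attached
vertex. -/
theorem order {rich : Finset V → Prop} (hN : 0 < N)
    (hmono : ∀ K K', K ⊆ K' → rich K → rich K') (hbig : ∀ K, rich K → 5 * N + 1 ≤ K.card)
    {T X : Finset V} (hTX : T ⊆ X) (hXZ : Disjoint X Z) (hI : Inv a Z N rich T X) :
    ∃ Xi ⊆ T, (∀ K ⊆ Xi, Insep a ((X \ T ∪ Xi) ∪ Z) (2 * N) K → ¬ rich K) ∧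
      ∀ Q, X \ T ∪ Xi ⊆ Q → Q ⊂ X → ∃ x ∈ T, x ∉ Q ∧ Att a (insert x Q) Z N x := by
  induction hn : T.card generalizing T X with
  | zero =>
    rw [Finset.card_eq_zero] at hn
    subst hn
    refine ⟨∅, Finset.Subset.refl _, ?_, ?_⟩
    · intro K hK _ h2
      have h3 := hbig K h2
      rw [Finset.subset_empty.1 hK, Finset.card_empty] at h3
      omega
    · intro Q hQ hQX
      rw [Finset.sdiff_empty, Finset.union_empty] at hQ
      exact absurd hQ hQX.2
  | succ n ih =>
    by_cases hex : ∃ K ⊆ T, Insep a (X ∪ Z) (2 * N) K ∧ rich K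
    · obtain ⟨x, hx, h1, h2⟩ := deletion hN hmono hbig hTX hXZ hI hex
      have he : X.erase x \ T.erase x = X \ T := by
        ext y
        simp only [Finset.mem_sdiff, Finset.mem_erase]
        constructor
        · rintro ⟨⟨h3, h4⟩, h5⟩
          exact ⟨h4, fun h6 => h5 ⟨h3, h6⟩⟩
        · rintro ⟨h3, h4⟩
          exact ⟨⟨fun e => h4 (e ▸ hx), h3⟩, fun h5 => h4 h5.2⟩
      obtain ⟨Xi, h3, h4, h5⟩ := ih (T := T.erase x) (X := X.erase x)
        (Finset.erase_subset_erase x hTX) (hXZ.mono_left (Finset.erase_subset _ _)) h2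
        (by rw [Finset.card_erase_of_mem hx, hn]; rfl)
      rw [he] at h4 h5
      have hxXi : x ∉ Xi := fun h => Finset.notMem_erase x T (h3 h)
      have hxQ0 : x ∉ X \ T ∪ Xi := by
        rw [Finset.mem_union, Finset.mem_sdiff]
        rintro (h | h)
        · exact h.2 hx
        · exact hxXi h
      refine ⟨Xi, h3.trans (Finset.erase_subset _ _), h4, ?_⟩
      intro Q hQ hQX
      by_cases hc : X.erase x ⊆ Q
      · have hxQ : x ∉ Q := by
          intro hxQ
          apply hQX.2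
          intro y hy
          by_cases hyx : y = x
          · rw [hyx]
            exact hxQ
          · exact hc (Finset.mem_erase.2 ⟨hyx, hy⟩)
        refine ⟨x, hx, hxQ, ?_⟩
        have : insert x Q = X := by
          apply Finset.Subset.antisymm
          · exact Finset.insert_subset (hTX hx) hQX.1
          · intro y hy
            by_cases hyx : y = x
            · rw [hyx]
              exact Finset.mem_insert_self _ _
            · exact Finset.mem_insert_of_mem (hc (Finset.mem_erase.2 ⟨hyx, hy⟩))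
        rw [this]
        exact h1
      · obtain ⟨y, hy, hyQ, hatt⟩ := h5 (Q.erase x) (fun z hz => Finset.mem_erase.2
          ⟨fun e => hxQ0 (e ▸ hz), hQ hz⟩) ⟨Finset.erase_subset_erase x hQX.1, fun h => hc
          (h.trans (Finset.erase_subset _ _))⟩
        rw [Finset.mem_erase] at hy
        have hyQ' : y ∉ Q := fun h => hyQ (Finset.mem_erase.2 ⟨hy.1, h⟩)
        refine ⟨y, hy.2, hyQ', ?_⟩
        apply hatt.mono (Finset.mem_insert_self _ _)
          (Finset.insert_subset_insert y (Finset.erase_subset x Q))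
        exact hXZ.mono_left (Finset.insert_subset (hTX hy.2) hQX.1)
    · refine ⟨T, Finset.Subset.refl _, ?_, ?_⟩
      · intro K hK h1 h2
        rw [Finset.sdiff_union_of_subset hTX] at h1
        exact hex ⟨K, hK, h1, h2⟩
      · intro Q h1 h2
        rw [Finset.sdiff_union_of_subset hTX] at h1
        exact absurd h1 h2.2

end Pool.Agent.OSX54
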